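import Pool.Agent.Q74.BT.Stm

/-!
# Project BT (helper74): job Kap
-/

set_option autoImplicit false

namespace Pool.Agent.Q153.BT

open Pool.Agent.Q74.BT
open Pool.Agent.H395R2.G3 (rr FF rr_spec)

lemma rr_bounds {γ : ℝ} (hγ : IsG γ) : 0.6 < rr γ ∧ rr γ < 0.62 := by
  obtain ⟨h1, h2, -, -⟩ := hγ
  have l2a := Real.log_two_gt_d9
  have l2b := Real.log_two_lt_d9
  have l3a := Real.log_three_gt_d9
  have l3b := Real.log_three_lt_d9
  have hγ0 : 0 < γ := by linarith
  have i1 : 1 / γ < 1 / 41.6776 := one_div_lt_one_div_of_lt (by norm_num) h1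
  have i2 : 1 / 41.6777 < 1 / γ := one_div_lt_one_div_of_lt hγ0 h2
  have hs := rr_spec γ
  rw [one_div] at hs
  constructor
  · by_contra h
    push Not at h
    have : rr γ * Real.log 3 ≤ 0.6 * Real.log 3 := mul_le_mul_of_nonneg_right h (by linarith)
    norm_num at i1 i2
    linarith
  · by_contra h
    push Not at h
    have : 0.62 * Real.log 3 ≤ rr γ * Real.log 3 := mul_le_mul_of_nonneg_right h (by linarith)
    norm_num at i1 i2
    linarith

/-- the exponent attached to `γ` -/
lemma eta_spec {γ : ℝ} (hγ : IsG γ) : ∃ η : ℝ, 0 < η ∧ η < 1 ∧ 0 < la η ∧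
    Real.log (la η) = -((1 + η) * (1 / γ)) := by
  obtain ⟨hr1, hr2⟩ := rr_bounds hγ
  obtain ⟨h1, h2, hF, -⟩ := hγ
  have hs := rr_spec γ
  set r := rr γ with hr
  have hr0 : 0 < r := by linarith
  have hr3 : 0 < 1 - r := by linarith
  have hl3 : 0 < Real.log 3 := Real.log_pos (by norm_num)
  have hl2 : 0 < Real.log 2 := Real.log_pos (by norm_num)
  set η : ℝ := (Real.log r - Real.log (1 - r)) / Real.log 3 with hη
  have hη3 : η * Real.log 3 = Real.log r - Real.log (1 - r) := by
    rw [hη]
    field_simp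
  have hlog : Real.log r - Real.log (1 - r) = Real.log (r / (1 - r)) := (Real.log_div hr0.ne' hr3.ne').symm
  have hη0 : 0 < η := by
    rw [hη, hlog]
    refine div_pos (Real.log_pos ?_) hl3
    rw [lt_div_iff₀ hr3]
    linarith
  have hη1 : η < 1 := by
    rw [hη, hlog, div_lt_one hl3]
    refine Real.log_lt_log (by positivity) ?_
    rw [div_lt_iff₀ hr3]
    linarith
  have e3 : Real.exp (η * Real.log 3) = r / (1 - r) := by
    rw [hη3, hlog, Real.exp_log (by positivity)]
  have hla : la η = Real.exp (-(η * Real.log 2)) / (2 * (1 - r)) := by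
    unfold la
    have e1 : (2 : ℝ) ^ (-η) = Real.exp (-(η * Real.log 2)) := by
      rw [Real.rpow_def_of_pos (by norm_num)]
      congr 1
      ring
    have e2 : (3 / 2 : ℝ) ^ η = Real.exp (-(η * Real.log 2)) * (r / (1 - r)) := by
      rw [Real.rpow_def_of_pos (by norm_num), Real.log_div (by norm_num) (by norm_num), ← e3,
        ← Real.exp_add]
      congr 1
      ring
    rw [e1, e2]
    field_simp
    ring
  have hla0 : 0 < la η := by
    rw [hla]
    positivity
  refine ⟨η, hη0, hη1, hla0, ?_⟩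
  have hF' : r * Real.log 3 = -(r * Real.log r) - (1 - r) * Real.log (1 - r) := by
    unfold FF at hF
    rw [Real.binEntropy, Real.log_inv, Real.log_inv] at hF
    linarith
  rw [hla, Real.log_div (Real.exp_pos _).ne' (by positivity), Real.log_exp,
    Real.log_mul (by norm_num) hr3.ne', hs]
  have h5 : r * (η * Real.log 3) = r * (Real.log r - Real.log (1 - r)) := by rw [hη3]
  clear_value η r
  linear_combination -h5 - hF'

/-- job Kap -/
theorem kap : S_Kap := by
  intro γ hγ ε hε
  obtain ⟨η, hη0, hη1, hla0, hlog⟩ := eta_spec hγ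
  have hγ0 : 0 < γ := by linarith [hγ.1]
  set δ := min ((1 + η) * ε) ((1 + η) * (1 / γ) / 2) with hδ
  have hg : 0 < (1 + η) * (1 / γ) := by positivity
  have hδ0 : 0 < δ := lt_min (by positivity) (by positivity)
  have hδ1 : δ ≤ (1 + η) * ε := min_le_left _ _
  have hδ2 : δ ≤ (1 + η) * (1 / γ) / 2 := min_le_right _ _
  have hq : Real.log (la η * Real.exp δ) = -((1 + η) * (1 / γ)) + δ := by
    rw [Real.log_mul hla0.ne' (Real.exp_pos _).ne', Real.log_exp, hlog]
  refine ⟨η, la η * Real.exp δ, hη0, hη1, ?_, ?_, ?_⟩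
  · have : 1 < Real.exp δ := Real.one_lt_exp_iff.2 hδ0
    nlinarith
  · have h1 : Real.log (la η * Real.exp δ) < 0 := by rw [hq]; linarith
    by_contra h
    push Not at h
    exact absurd (Real.log_nonneg h) (not_le.2 h1)
  · rw [hq]
    nlinarith

end Pool.Agent.Q153.BT
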