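import Pool.Agent.Q74.BT.Stm
import Pool.Agent.Q153.BT.Kap

/-!
# Project BT (helper74): job Top
-/

set_option autoImplicit false

namespace Pool.Agent.Q153.BT

open Finset
open Pool.Agent.Q158.Pair (T surv nc)
open Pool.Agent.Q74.AR (oc bE bE_succ bE_mul)
open Pool.Agent.Q74.KP (EE Erf EE_mono EE_sum EE_mul)
open Pool.Agent.Q74.BL (nx ww EE_oc)
open Pool.Agent.Q74.BT
open Pool.Agent.H395R2.G3 (rr FF rr_spec)

/-- the generating function of the binomial law -/
lemma bE_exp (lam : ℝ) (t : ℕ) : bE t (fun k => Real.exp (lam * k)) = ((1 + Real.exp lam) / 2) ^ t := by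
  induction t with
  | zero => simp [bE]
  | succ n ih =>
    rw [bE_succ, ih]
    have h : bE n (fun k => Real.exp (lam * ((k + 1 : ℕ) : ℝ))) = Real.exp lam * bE n (fun k => Real.exp (lam * k)) := by
      rw [← bE_mul]
      congr 1
      funext k
      rw [← Real.exp_add]
      congr 1
      push_cast
      ring
    rw [h, ih]
    ring

lemma EE_exp (lam : ℝ) (t : ℕ) (j : ℤ) :
    EE t (fun x => Real.exp (lam * (oc t (x + j) : ℝ))) = ((1 + Real.exp lam) / 2) ^ t := by
  rw [← bE_exp]
  have h := EE_oc t (fun k => Real.exp (lam * k)) 0 j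
  simpa using h

/-- the exponential rate at the frequency `rr γ` -/
lemma lam_spec {γ : ℝ} (hγ : IsG γ) : ∃ lam : ℝ, 0 < lam ∧
    (1 + Real.exp lam) / 2 * Real.exp (-(lam * rr γ)) = Real.exp (-(1 / γ)) := by
  obtain ⟨hr1, hr2⟩ := rr_bounds hγ
  obtain ⟨h1, h2, hF, -⟩ := hγ
  have hs := rr_spec γ
  set r := rr γ with hr
  have hr0 : 0 < r := by linarith
  have hr3 : 0 < 1 - r := by linarith
  have hlog : Real.log r - Real.log (1 - r) = Real.log (r / (1 - r)) := (Real.log_div hr0.ne' hr3.ne').symm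
  refine ⟨Real.log r - Real.log (1 - r), ?_, ?_⟩
  · rw [hlog]
    refine Real.log_pos ?_
    rw [lt_div_iff₀ hr3]
    linarith
  · have e1 : (1 + Real.exp (Real.log r - Real.log (1 - r))) / 2 = Real.exp (-Real.log 2 - Real.log (1 - r)) := by
      rw [hlog, Real.exp_log (by positivity), Real.exp_sub, Real.exp_neg, Real.exp_log (by norm_num),
        Real.exp_log hr3]
      field_simp
      ring
    have hF' : r * Real.log 3 = -(r * Real.log r) - (1 - r) * Real.log (1 - r) := by
      unfold FF at hF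
      rw [Real.binEntropy, Real.log_inv, Real.log_inv] at hF
      linarith
    rw [e1, ← Real.exp_add, hs]
    congr 1
    linear_combination (-1 : ℝ) * hF'

/-- job Top -/
theorem top : S_Top := by
  intro γ hγ ε hε
  obtain ⟨lam, hlam, hspec⟩ := lam_spec hγ
  have hγ0 : 0 < γ := by linarith [hγ.1]
  refine ⟨lam * ε, by positivity, fun L t hL hLt => ?_⟩
  have h1 : ∀ x : ℤ, Set.indicator {x : ℤ | ∃ z ∈ VV L t x, (rr γ + ε) * t ≤ z.1} (1 : ℤ → ℝ) x ≤
      ∑ j ∈ range L, Real.exp (-(lam * ((rr γ + ε) * t))) * Real.exp (lam * (oc t (x + (j : ℤ)) : ℝ)) := by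
    intro x
    refine Set.indicator_apply_le' ?_ ?_
    · rintro ⟨z, hz, hzt⟩
      unfold VV at hz
      obtain ⟨j, hj, rfl⟩ := mem_image.1 hz
      have e : (nx t x (0, (j : ℤ))).1 = oc t (x + j) := by
        unfold nx
        simp
      rw [e] at hzt
      have h2 : (1 : ℝ) ≤ Real.exp (-(lam * ((rr γ + ε) * t))) * Real.exp (lam * (oc t (x + (j : ℤ)) : ℝ)) := by
        rw [← Real.exp_add]
        refine Real.one_le_exp ?_
        nlinarith
      exact h2.trans (single_le_sum (f := fun j : ℕ => Real.exp (-(lam * ((rr γ + ε) * t))) *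
        Real.exp (lam * (oc t (x + (j : ℤ)) : ℝ))) (fun j _ => by positivity) hj)
    · intro _
      exact sum_nonneg fun j _ => by positivity
  refine (EE_mono t h1).trans ?_
  rw [EE_sum]
  have h3 : ∀ j ∈ range L, EE t (fun x => Real.exp (-(lam * ((rr γ + ε) * t))) *
      Real.exp (lam * (oc t (x + (j : ℤ)) : ℝ))) = Real.exp (-(t / γ)) * Real.exp (-(lam * ε * t)) := by
    intro j _
    rw [EE_mul, EE_exp]
    have h4 : Real.exp (-(lam * ((rr γ + ε) * t))) = Real.exp (-(lam * rr γ)) ^ t * Real.exp (-(lam * ε * t)) := by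
      rw [← Real.exp_nat_mul, ← Real.exp_add]
      congr 1
      ring
    rw [h4]
    calc Real.exp (-(lam * rr γ)) ^ t * Real.exp (-(lam * ε * t)) * ((1 + Real.exp lam) / 2) ^ t
        = ((1 + Real.exp lam) / 2 * Real.exp (-(lam * rr γ))) ^ t * Real.exp (-(lam * ε * t)) := by
          rw [mul_pow]
          ring
      _ = _ := by
          rw [hspec, ← Real.exp_nat_mul]
          congr 2
          ring
  rw [sum_congr rfl h3, sum_const, card_range, nsmul_eq_mul, ← mul_assoc]
  have hL0 : (0 : ℝ) < L := by exact_mod_cast hL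
  have h5 : (L : ℝ) * Real.exp (-(t / γ)) ≤ 1 := by
    have h6 : (L : ℝ) ≤ Real.exp (t / γ) := by
      rw [← Real.log_le_iff_le_exp hL0, le_div_iff₀ hγ0, mul_comm]
      exact hLt
    calc (L : ℝ) * Real.exp (-(t / γ)) ≤ Real.exp (t / γ) * Real.exp (-(t / γ)) :=
          mul_le_mul_of_nonneg_right h6 (Real.exp_pos _).le
      _ = 1 := by rw [← Real.exp_add, add_neg_cancel, Real.exp_zero]
  calc (L : ℝ) * Real.exp (-(t / γ)) * Real.exp (-(lam * ε * t)) ≤ 1 * Real.exp (-(lam * ε * t)) :=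
        mul_le_mul_of_nonneg_right h5 (Real.exp_pos _).le
    _ = _ := one_mul _

end Pool.Agent.Q153.BT
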